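import Mathlib

open unitInterval

namespace Pool.Agent.Results.MP_478a43_lc.NoExample

/-- Fuzzy negation on the unit interval. -/
def IsNeg (N : I → I) : Prop := Antitone N ∧ N 0 = 1 ∧ N 1 = 0

/-- Fuzzy implication on the unit interval. -/
def IsImp (J : I → I → I) : Prop :=
  (∀ y, Antitone fun x => J x y) ∧ (∀ x, Monotone (J x)) ∧ J 0 0 = 1 ∧ J 1 1 = 1 ∧ J 1 0 = 0

def CP (J : I → I → I) (N : I → I) : Prop := ∀ x y, J x y = J (N y) (N x)

def LCP (J : I → I → I) (N : I → I) : Prop := ∀ x y, J (N x) y = J (N y) x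

def RCP (J : I → I → I) (N : I → I) : Prop := ∀ x y, J x (N y) = J y (N x)

theorem result : ∀ (J : I → I → I) (N : I → I), IsImp J → IsNeg N → CP J N → LCP J N →
    RCP J N := by
  intro J N _ _ h1 h2 x y
  rw [h1 x (N y), h2 (N y) (N x), ← h1 y (N x)]

end Pool.Agent.Results.MP_478a43_lc.NoExample
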